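import Pool.Agent.H95.SLF.Base

/-! Euclidean algorithm in the 12-block: every element of `P2` is the value of a short
structured word. -/

set_option autoImplicit false

namespace Pool.Agent.H95.SLF

open Pool.Agent.H68.SLF

lemma exists_round (c d : ℤ) (hc : c ≠ 0) : ∃ q : ℤ, 2 * (d - q * c).natAbs ≤ c.natAbs := by
  have h1 := Int.emod_nonneg d hc
  have h2 := Int.emod_lt_abs d hc
  have h3 := Int.mul_ediv_add_emod d c
  rcases lt_or_gt_of_ne hc with h | h
  · rw [abs_of_neg h] at h2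
    by_cases h4 : 2 * (d % c) ≤ -c
    · refine ⟨d / c, ?_⟩
      have h5 : d - d / c * c = d % c := by linear_combination -h3
      rw [h5]
      omega
    · refine ⟨d / c - 1, ?_⟩
      have h5 : d - (d / c - 1) * c = d % c + c := by linear_combination -h3
      rw [h5]
      omega
  · rw [abs_of_pos h] at h2
    by_cases h4 : 2 * (d % c) ≤ c
    · refine ⟨d / c, ?_⟩
      have h5 : d - d / c * c = d % c := by linear_combination -h3
      rw [h5]
      omega
    · refine ⟨d / c + 1, ?_⟩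
      have h5 : d - (d / c + 1) * c = d % c - c := by linear_combination -h3
      rw [h5]
      omega

lemma sz_pos {c : ℤ} (hc : c ≠ 0) : 1 ≤ sz c := by
  have : 0 < c.natAbs := Int.natAbs_pos.2 hc
  exact Nat.size_pos.2 this

lemma sz_half {a c : ℤ} (hc : c ≠ 0) (h : 2 * a.natAbs ≤ c.natAbs) : sz a + 1 ≤ sz c := by
  obtain ⟨m, hm⟩ : ∃ m, sz c = m + 1 := ⟨sz c - 1, by have := sz_pos hc; omega⟩
  have h1 := lt_sz c
  rw [hm, pow_succ] at h1
  have h2 : sz a ≤ m := sz_le.2 (by omega)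
  omega

lemma pow_le_of_sz {c : ℤ} {m : ℕ} (h : sz c = m + 1) : 2 ^ m ≤ c.natAbs := by
  by_contra h1
  have h2 : sz c ≤ m := sz_le.2 (by omega)
  omega

lemma sz_quot {q c d : ℤ} (hq : q ≠ 0) (hc : c ≠ 0) (h : (q * c).natAbs ≤ 2 * d.natAbs) :
    sz q + sz c ≤ sz d + 2 := by
  obtain ⟨m, hm⟩ : ∃ m, sz c = m + 1 := ⟨sz c - 1, by have := sz_pos hc; omega⟩
  obtain ⟨s, hs⟩ : ∃ m, sz q = m + 1 := ⟨sz q - 1, by have := sz_pos hq; omega⟩
  have h1 := pow_le_of_sz hm
  have h2 := pow_le_of_sz hs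
  have h3 := Nat.mul_le_mul h2 h1
  rw [← Int.natAbs_mul, ← pow_add] at h3
  have h4 := lt_sz d
  have h5 : 2 ^ (s + m) < 2 ^ (sz d + 1) := by rw [pow_succ]; omega
  have h6 := (Nat.pow_lt_pow_iff_right (by norm_num : 1 < 2)).1 h5
  omega

/-- the step of the algorithm -/
lemma euclid_step (g : G) (q : ℤ) :
    (g * e12 (-q) * Jm⁻¹).1 = !![g.1 0 1 - q * g.1 0 0, - g.1 0 0, g.1 0 2;
      g.1 1 1 - q * g.1 1 0, - g.1 1 0, g.1 1 2; g.1 2 1 - q * g.1 2 0, - g.1 2 0, g.1 2 2] := by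
  rw [gmul, gmul, e12_val, Jm_inv_val]
  ext i j
  fin_cases i <;> fin_cases j <;>
    simp [Matrix.mul_apply, Fin.sum_univ_three] <;> ring

lemma e12_neg_mul (q : ℤ) : e12 (-q) * e12 q = 1 := by
  apply Subtype.ext
  rw [gmul, e12_val, e12_val]
  ext i j
  fin_cases i <;> fin_cases j <;>
    simp [Matrix.mul_apply, Fin.sum_univ_three]

lemma det_block (g : G) (h20 : g.1 2 0 = 0) (h21 : g.1 2 1 = 0) :
    (g.1 0 0 * g.1 1 1 - g.1 0 1 * g.1 1 0) * g.1 2 2 = 1 := by
  have h := g.2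
  rw [Matrix.det_fin_three] at h
  rw [h20, h21] at h
  linear_combination h

theorem euclid_block (N : ℕ) : ∀ (g : G) (k : ℕ), g.1 2 0 = 0 → g.1 2 1 = 0 → g.1 0 2 = 0 →
    g.1 1 2 = 0 → (g.1 1 0).natAbs ≤ N → (g.1 0 0).natAbs < 2 ^ k → (g.1 0 1).natAbs < 2 ^ k →
    ∃ (a b : ℤˣ) (r : ℤ) (l : List ℤ), dm a b * (gp l * e12 r) = g ∧
      ph (r :: l) ≤ 1 + k + 2 * (sz (g.1 1 1) + 4 * sz (g.1 1 0)) := by
  induction N using Nat.strong_induction_on with
  | _ N ih =>
    intro g k h20 h21 h02 h12 hN h00 h01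
    have hdet := det_block g h20 h21
    by_cases hc : g.1 1 0 = 0
    · rw [hc, mul_zero, sub_zero] at hdet
      have hu22 : IsUnit (g.1 2 2) := IsUnit.of_mul_eq_one _ (by rw [mul_comm]; exact hdet)
      have hu00 : IsUnit (g.1 0 0) := IsUnit.of_mul_eq_one (g.1 1 1 * g.1 2 2)
        (by linear_combination hdet)
      have hu11 : IsUnit (g.1 1 1) := IsUnit.of_mul_eq_one (g.1 0 0 * g.1 2 2)
        (by linear_combination hdet)
      obtain ⟨a, ha⟩ := hu00
      obtain ⟨b, hb⟩ := hu11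
      have e22 : g.1 2 2 = a * b := by
        have h1 := unit_sq a
        have h2 := unit_sq b
        rw [← ha, ← hb] at hdet
        calc g.1 2 2 = ((a : ℤ) * a) * (b * b) * g.1 2 2 := by rw [h1, h2]; ring
          _ = (a * b) * ((a : ℤ) * b * g.1 2 2) := by ring
          _ = a * b := by rw [hdet, mul_one]
      refine ⟨a, b, (a : ℤ) * g.1 0 1, [], ?_, ?_⟩
      · apply Subtype.ext
        rw [gp_nil, one_mul, gmul, dm_val, e12_val]
        have h1 := unit_sq a
        ext i j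
        fin_cases i <;> fin_cases j <;>
          simp [Matrix.mul_apply, Fin.sum_univ_three, h20, h21, h02, h12, hc, ha, hb, e22]
        · rw [← ha]; linear_combination (g.1 0 1) * h1
      · simp only [ph_cons, ph_nil, sz_umul]
        have : sz (g.1 0 1) ≤ k := sz_le.2 h01
        omega
    · obtain ⟨q, hq⟩ := exists_round (g.1 1 0) (g.1 1 1) hc
      have e := euclid_step g q
      have hlt : (g.1 1 1 - q * g.1 1 0).natAbs < N := by
        have : 0 < (g.1 1 0).natAbs := Int.natAbs_pos.2 hc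
        omega
      have hqa : (q * g.1 0 0).natAbs < 2 ^ (sz q + k) := by
        rw [Int.natAbs_mul, pow_add]
        exact Nat.mul_lt_mul'' (lt_sz q) h00
      have hk1 : 2 ^ k ≤ 2 ^ (sz q + k) := Nat.pow_le_pow_right (by norm_num) (by omega)
      obtain ⟨a, b, r, l, h1, h2⟩ := ih _ hlt (g * e12 (-q) * Jm⁻¹) (sz q + k + 1)
        (by rw [e]; simp [h20, h21]) (by rw [e]; simp [h20]) (by rw [e]; simpa using h02)
        (by rw [e]; simpa using h12) (by rw [e]; simp)
        (by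
          rw [e]
          change (g.1 0 1 - q * g.1 0 0).natAbs < _
          rw [pow_succ]
          omega)
        (by
          rw [e]
          change (- g.1 0 0).natAbs < _
          rw [pow_succ]
          omega)
      refine ⟨a, b, q, r :: l, ?_, ?_⟩
      · have : g = (g * e12 (-q) * Jm⁻¹) * (Jm * e12 q) := by
          rw [mul_assoc (g * e12 (-q)), inv_mul_cancel_left, mul_assoc, e12_neg_mul, mul_one]
        conv_rhs => rw [this, ← h1]
        simp only [gp_cons, mul_assoc]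
      · rw [e] at h2
        change ph (r :: l) ≤ 1 + (sz q + k + 1) +
          2 * (sz (- g.1 1 0) + 4 * sz (g.1 1 1 - q * g.1 1 0)) at h2
        rw [sz_neg] at h2
        rw [ph_cons q]
        have h3 := sz_half hc hq
        by_cases hq0 : q = 0
        · subst hq0
          rw [zero_mul, sub_zero] at h2 h3
          rw [sz_zero] at h2 ⊢
          omega
        · have h4 : (q * g.1 1 0).natAbs ≤ 2 * (g.1 1 1).natAbs := by
            have h5 : (g.1 1 0).natAbs ≤ (q * g.1 1 0).natAbs := by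
              rw [Int.natAbs_mul]
              exact Nat.le_mul_of_pos_left _ (Int.natAbs_pos.2 hq0)
            omega
          have h5 := sz_quot hq0 hc h4
          omega

theorem euclid (p : G) (n : ℕ) (hp : p ∈ P2) (hn : Sz n p) :
    ∃ (x y : ℤ) (a b : ℤˣ) (r : ℤ) (l : List ℤ), gv x y a b r l = p ∧ sz x ≤ n ∧ sz y ≤ n ∧
      ph (r :: l) ≤ 11 * n + 11 := by
  obtain ⟨h20, h21⟩ : p.1 2 0 = 0 ∧ p.1 2 1 = 0 := hp
  have hdet := det_block p h20 h21
  have hu22 : IsUnit (p.1 2 2) := IsUnit.of_mul_eq_one _ (by rw [mul_comm]; exact hdet)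
  obtain ⟨c, hc⟩ := hu22
  have hcc := unit_sq c
  have e : (uu (-((c : ℤ) * p.1 0 2)) (-((c : ℤ) * p.1 1 2)) * p).1 =
      !![p.1 0 0, p.1 0 1, 0; p.1 1 0, p.1 1 1, 0; 0, 0, p.1 2 2] := by
    rw [gmul, uu_val]
    ext i j
    fin_cases i <;> fin_cases j <;>
      simp [Matrix.mul_apply, Fin.sum_univ_three, h20, h21]
    · rw [← hc]; linear_combination (- p.1 0 2) * hcc
    · rw [← hc]; linear_combination (- p.1 1 2) * hcc
  have h2 : uu ((c : ℤ) * p.1 0 2) ((c : ℤ) * p.1 1 2) *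
      uu (-((c : ℤ) * p.1 0 2)) (-((c : ℤ) * p.1 1 2)) = 1 := by
    apply Subtype.ext
    rw [gmul, uu_val, uu_val]
    ext i j
    fin_cases i <;> fin_cases j <;>
      simp [Matrix.mul_apply, Fin.sum_univ_three]
  obtain ⟨a, b, r, l, h1, h3⟩ := euclid_block (p.1 1 0).natAbs
    (uu (-((c : ℤ) * p.1 0 2)) (-((c : ℤ) * p.1 1 2)) * p) n
    (by rw [e]; simp) (by rw [e]; simp) (by rw [e]; simp) (by rw [e]; simp) (by rw [e]; simp)
    (by rw [e]; simpa using (hn 0 0).1) (by rw [e]; simpa using (hn 0 1).1)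
  refine ⟨(c : ℤ) * p.1 0 2, (c : ℤ) * p.1 1 2, a, b, r, l, ?_, ?_, ?_, ?_⟩
  · rw [gv, h1, ← mul_assoc, h2, one_mul]
  · rw [sz_umul]; exact sz_le.2 (hn 0 2).1
  · rw [sz_umul]; exact sz_le.2 (hn 1 2).1
  · rw [e] at h3
    change ph (r :: l) ≤ 1 + n + 2 * (sz (p.1 1 1) + 4 * sz (p.1 1 0)) at h3
    have h4 : sz (p.1 1 1) ≤ n := sz_le.2 (hn 1 1).1
    have h5 : sz (p.1 1 0) ≤ n := sz_le.2 (hn 1 0).1
    omega

end Pool.Agent.H95.SLF
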